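import Pool.Agent.H61.WC.Main

/-!
# [H72 WI Cst] THEOREM W (MP_187c26_nt): the rows are constant mod `p`

`row_const`: an integral row of energy `≤ 5 p ^ 2` which is mod `p` a polynomial of degree `≤ 42` is constant mod `p`
(`p` large): at least `p - c` of the values are `≤ p / 172`, one of them is taken more than `42` times.
`wc_const`: `wc_main` with this conclusion.
-/

set_option autoImplicit false

open Polynomial

namespace Pool.Agent.H72.WI

theorem row_const (p : ℕ) [Fact p.Prime] (hp : 369800 ≤ p) (n : ZMod p → ℤ)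
    (hE : ∑ i, (n i) ^ 2 ≤ 5 * (p : ℤ) ^ 2) (P : (ZMod p)[X]) (hP : P.natDegree ≤ 42)
    (h : ∀ i, (n i : ZMod p) = P.eval i) : ∃ c : ℤ, ∀ i, (p : ℤ) ∣ n i - c := by
  classical
  obtain ⟨H, hH⟩ : ∃ H : ℕ, H = p / 172 := ⟨_, rfl⟩
  have hH1 : 172 * H ≤ p := by rw [hH]; exact Nat.mul_div_le p 172
  have hH2 : p < 172 * (H + 1) := by omega
  -- the large values
  have h1 : (Finset.univ.filter fun i : ZMod p => ¬ |n i| ≤ (H : ℤ)).card ≤ 147920 := by
    obtain ⟨T, hT⟩ : ∃ T, T = Finset.univ.filter fun i : ZMod p => ¬ |n i| ≤ (H : ℤ) := ⟨_, rfl⟩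
    rw [← hT]
    have h2 : (T.card : ℤ) * ((H : ℤ) + 1) ^ 2 ≤ 5 * (p : ℤ) ^ 2 := by
      refine le_trans ?_ hE
      refine le_trans ?_ (Finset.sum_le_sum_of_subset_of_nonneg (Finset.subset_univ T) fun i _ _ => sq_nonneg (n i))
      rw [← nsmul_eq_mul]
      refine Finset.card_nsmul_le_sum T _ _ fun i hi => ?_
      rw [hT, Finset.mem_filter, not_le] at hi
      rw [← sq_abs (n i)]
      exact pow_le_pow_left₀ (by positivity) hi.2 2
    have h3 : (p : ℤ) ^ 2 ≤ 29584 * ((H : ℤ) + 1) ^ 2 := by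
      have : (p : ℤ) ≤ 172 * ((H : ℤ) + 1) := by exact_mod_cast hH2.le
      nlinarith [(Nat.cast_nonneg p : (0 : ℤ) ≤ p)]
    have h4 : (T.card : ℤ) * ((H : ℤ) + 1) ^ 2 ≤ 147920 * ((H : ℤ) + 1) ^ 2 := by linarith
    have h5 : (T.card : ℤ) ≤ 147920 := le_of_mul_le_mul_right h4 (by positivity)
    exact_mod_cast h5
  have h2 : p ≤ (Finset.univ.filter fun i : ZMod p => |n i| ≤ (H : ℤ)).card + 147920 := by
    have h3 := Finset.card_filter_add_card_filter_not (s := (Finset.univ : Finset (ZMod p))) (fun i => |n i| ≤ (H : ℤ))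
    rw [Finset.card_univ, ZMod.card] at h3
    omega
  obtain ⟨v, -, hv⟩ := Finset.exists_lt_card_fiber_of_mul_lt_card_of_maps_to (n := 42)
    (s := Finset.univ.filter fun i : ZMod p => |n i| ≤ (H : ℤ)) (t := Finset.Icc (-(H : ℤ)) H) (f := n)
    (by
      intro i hi
      rw [Finset.mem_filter] at hi
      rw [Finset.mem_Icc]
      exact abs_le.1 hi.2)
    (by
      rw [Int.card_Icc]
      have : ((H : ℤ) + 1 - -(H : ℤ)).toNat = 2 * H + 1 := by omega
      rw [this]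
      omega)
  refine ⟨v, fun i => ?_⟩
  have h6 : P - C (v : ZMod p) = 0 := by
    by_contra h0
    have h7 := Polynomial.card_roots' (P - C (v : ZMod p))
    have h8 : (P - C (v : ZMod p)).natDegree ≤ 42 := by
      rw [Polynomial.natDegree_sub_C]; exact hP
    have h9 : (Finset.filter (fun i => n i = v) (Finset.univ.filter fun i : ZMod p => |n i| ≤ (H : ℤ))).card ≤
        (P - C (v : ZMod p)).roots.toFinset.card := by
      refine Finset.card_le_card fun i hi => ?_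
      rw [Finset.mem_filter] at hi
      rw [Multiset.mem_toFinset, Polynomial.mem_roots h0, Polynomial.IsRoot, Polynomial.eval_sub, Polynomial.eval_C,
        ← h i, hi.2, sub_self]
    have h10 := Multiset.toFinset_card_le (P - C (v : ZMod p)).roots
    omega
  rw [← ZMod.intCast_zmod_eq_zero_iff_dvd]
  push_cast
  rw [h i, sub_eq_zero.1 h6, Polynomial.eval_C, sub_self]

theorem wc_const (b : ℕ) (hb : 2 ≤ b) : ∃ q p₀ : ℕ, q.Prime ∧ ¬ q ∣ b ∧
    ∀ (p : ℕ) [Fact p.Prime], p₀ ≤ p → ∀ n m : ZMod p → ZMod p → ℤ,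
      ∑ i, ∑ j, (n i j) ^ 2 ≤ 5 * (p : ℤ) ^ 2 → ∑ i, ∑ j, (m i j) ^ 2 ≤ 5 * (p : ℤ) ^ 2 →
      (∀ j, ∑ i, n i j = 0) →
      (∀ i j, (q : ℤ) ∣ m ((q : ZMod p) * i) ((q : ZMod p) * j) - (b : ℤ) ^ ((q * j.val) / p) * n i j) →
      (∀ k l : ℕ, k < p → l < p → p - 1 ≤ k + l →
        (p : ℤ) ∣ ∑ s ∈ Finset.range (k + 1), ∑ t ∈ Finset.range (l + 1),
          (-1) ^ ((k - s) + (l - t)) * (k.choose s : ℤ) * (l.choose t : ℤ) * ((b : ℤ) ^ t * n (s : ZMod p) (t : ZMod p))) →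
      ∀ j, ∃ c : ℤ, ∀ i, (p : ℤ) ∣ n i j - c := by
  obtain ⟨q, p₀, hq, hqb, hmain⟩ := Pool.Agent.H61.WC.wc_main b hb
  refine ⟨q, max p₀ 369800, hq, hqb, ?_⟩
  intro p _ hp₀ n m hE1 hE2 hR hFr hCo j
  obtain ⟨P, hP, hPe⟩ := hmain p ((le_max_left _ _).trans hp₀) n m hE1 hE2 hR hFr hCo j
  refine row_const p ((le_max_right _ _).trans hp₀) (fun i => n i j) ?_ P hP hPe
  refine le_trans ?_ hE1
  refine Finset.sum_le_sum fun i _ => ?_
  exact Finset.single_le_sum (f := fun j => (n i j) ^ 2) (fun j _ => sq_nonneg _) (Finset.mem_univ j)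

end Pool.Agent.H72.WI
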